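import Pool.Agent.Helper52_ABB.Fin3

/-!
# Groups of the form ABA with cyclic A and B need not be soluble (MP_d857f1_al)

The proof is the work of the squad ABA: see `Helper94_ABB/Asm.lean`, `Helper52_ABB/Fin.lean`,
`Helper89_ABA/Final2.lean`, `Helper70_ABA/LFnew.lean`, `Helper17_ABA/Geom.lean`.
-/

namespace Pool.Agent.Results.MP_d857f1_al.NotSoluble

/-- There are a group `G` and cyclic subgroups `A`, `B` of `G` with `G = ABA` such that `G` is not
soluble. -/
theorem result : ∃ (G : Type) (_ : Group G) (A B : Subgroup G), IsCyclic A ∧ IsCyclic B ∧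
    (∀ g : G, ∃ x ∈ A, ∃ y ∈ B, ∃ z ∈ A, g = x * y * z) ∧ ¬ Group.IsSolvable G :=
  Pool.Agent.ABA.B.H52.exists_not_solvable

end Pool.Agent.Results.MP_d857f1_al.NotSoluble
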